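import Pool.Agent.Q202.AR.Sets

set_option autoImplicit false

/-!
# 3SUM-Indexing: approximating polynomials, in particular quantum queries

Two arrays `A`, `B` (sets of at most `n` integers from `0, …, n ^ 2`) are preprocessed. The memory
has `M` real numbers (for instance bits), which are arbitrary functions of both arrays. The query `z`
evaluates a real polynomial of degree at most `T` in these numbers. The value, which is between `0`
and `1`, is on the average over the random choice of the structure at least `2 / 3` if `z` is the sum
of an element of `A` and an element of `B`, and at most `1 / 3` if it is not.

The acceptance probability of a randomised algorithm with `T` adaptive probes of bits is such a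
polynomial, and that of a quantum algorithm with `T / 2` probes of bits (R. Beals et al.), with
two-sided error. A cell of `w` bits can be replaced by the `2 ^ w` indicators of its contents.

We consider arrays `arr₁ X`, `arr₂ Y` which are divided into `k` blocks of at most `u` elements each;
the contents of the block `i` of the first array is coded by the set `X i`, that of the block `j` of
the second array by the set `Y j`. A number of the memory *entangles* the blocks `i` and `j` at `X`,
`Y`, if its real rank, as a function of the contents of these two blocks, the others being as in `X`
and `Y`, is larger than `r`. For example, a number which depends on one array only has rank `1`, and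
a real polynomial of degree `d` in the membership bits of both arrays has rank at most `(u + 1) ^ d`.

Theorem. Let `L = T ⌈log₂ ((M + 1) r)⌉ + 4` and `n ≥ 100 L ^ 2`. There are `k`, `u` with `k u ≤ n`
such that for all such random structures and for all `X`, `Y` the expected number of pairs of blocks
entangled by the numbers of the memory is at least `n ^ 2 / (320000 * L ^ 4)`.

So if every number entangles at most `R` pairs of blocks then `M ≥ n ^ 2 / (320000 * L ^ 4 * R)`:
truly subquadratic space and quantum query time `T = n ^ o(1)` are impossible if `R` and `log r` are
`n ^ o(1)`, and if no number entangles any pair (for instance if all numbers are real polynomials of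
degree `n ^ o(1)` in the membership bits) then no space `2 ^ (n ^ o(1))` is enough.

Proof. The number `z` which belongs to the blocks `i` and `j` is a sum iff the sets `x`, `y` which
code them intersect. Let `u = 100 L ^ 2`. If no number entangles the pair then the matrix of the
values, as a function of the two sets, has entries between `0` and `1` and rank at most
`((M + 1) r) ^ T ≤ 2 ^ (L - 4)`. Its averages for the weights
`∏ (1 + θ (4 [x_e = y_e] - 1)) / 16 ^ u` on pairs of points of `{0, 1, 2, 3} ^ u`, with the sets
`{e : x_e = 0}`, `{e : y_e = 0}`, are power series in `θ` with coefficients of sum at most
`2 ^ (L - 4)`, so for `|θ| ≤ 1/3` nearly polynomials of degree `L`. For `θ = -1/3` the sets are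
disjoint; for `θ ≥ -1/3 + 16 / u` they intersect with probability at least `15 / 16`. The extremal
property of Chebyshev polynomials excludes this. Members of the random family with an entangling
number have probability at least `1/8`.
-/

namespace Pool.Agent.Results.MP_e016b3_lc.ApproximatingPolynomials

open Pool.Agent.Q202.AR

theorem result (n T M r L : ℕ) (hr : 1 ≤ r)
    (hL : L = T * Nat.clog 2 ((M + 1) * r) + 4) (hn : 100 * L ^ 2 ≤ n) :
    ∃ k u : ℕ, k * u ≤ n ∧ ∀ (Ω : Type) [Fintype Ω] (D : Ω → SumDS M), SolvesSums D n T →
      ∀ X Y : Fin k → Finset (Fin u),
        n ^ 2 * Nat.card Ω ≤ 320000 * L ^ 4 *
          Nat.card {q : Ω × (Fin k × Fin k) × Fin M //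
            (D q.1).Entangles r X Y q.2.1.1 q.2.1.2 q.2.2} :=
  sums_bound n T M r L hr hL hn

end Pool.Agent.Results.MP_e016b3_lc.ApproximatingPolynomials
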