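import Pool.Agent.Q202.RC.Sums

set_option autoImplicit false

/-!
# 3SUM-Indexing: polynomial queries to memory bits of small rank

Two arrays `A`, `B` (sets of at most `n` integers from `0, …, n ^ 2`) are preprocessed. The memory
has `M` bits, which are arbitrary functions of both arrays. The query `z` evaluates a set of
polynomials over a field `K`, of degree at most `T`, in the memory bits. They all vanish if `z` is
the sum of an element of `A` and an element of `B`; if it is not, then one of them does not vanish
with probability at least `2 ^ (- μ)` over the random choice of the structure.

This is a common generalisation of one-sided algorithms: the number of accepting computations with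
`T` adaptive or nondeterministic probes of bits is such a polynomial over `ℚ` (so a certificate of
`T` memory bits that `z` is not a sum is enough), and the amplitudes of the accepting states after
`T` quantum probes are such polynomials over `ℂ`.

We consider arrays `arr₁ X`, `arr₂ Y` which are divided into `k` blocks of at most `u` elements each;
the contents of the block `i` of the first array is coded by the set `X i`, that of the block `j` of
the second array by the set `Y j`. A memory bit *entangles* the blocks `i` and `j` at `X`, `Y`, if
its rank over `K`, as a function of the contents of these two blocks, the others being as in `X` and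
`Y`, is larger than `r`. For example, a bit which depends on one array only has rank `1`, and a bit
which is a polynomial of degree `d` over `K` in the membership bits of both arrays has rank at most
`(u + 1) ^ d`.

Theorem. Let `L = T ⌈log₂ ((M + 1) r)⌉ + μ + 2 ≤ n`. There are `k`, `u` with `k u ≤ n` such that for
all such random structures and for all `X`, `Y` the expected number of pairs of blocks entangled by
the memory bits is at least `n ^ 2 / (8 * 2 ^ μ * L ^ 2)`.

So if every memory bit entangles at most `R` pairs of blocks then
`M ≥ n ^ 2 / (8 * 2 ^ μ * L ^ 2 * R)`: truly subquadratic space and query time `T = n ^ o(1)` are
impossible if `R` and `log r` are `n ^ o(1)`, and if no bit entangles any pair (for instance if all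
memory bits are polynomials of degree `n ^ o(1)` over `K`) then no space `2 ^ (n ^ o(1))` is enough.

Proof. The number `z` which belongs to the blocks `i` and `j` is a sum iff the sets `x`, `y` which
code them intersect. Let `u = L`. If no memory bit entangles the pair then all polynomials of degree
at most `T` in the memory bits are, as functions of `y`, combinations of the same
`((M + 1) r) ^ T ≤ 2 ^ (u - μ - 1)` functions. Consider the sets `x` for which some polynomial of the
query does not vanish at `(x, xᶜ)`. The corresponding functions of `y` are linearly independent, as
they vanish at `yᶜ` unless `x ⊆ y`. So there are at most `2 ^ (u - μ - 1)` such sets, for the members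
of the family of structures with no entangling bit; but there are `2 ^ (u - μ)` on the average.
-/

namespace Pool.Agent.Results.MP_e016b3_lc.PolynomialQueries

open Pool.Agent.Q202.RC

theorem result (K : Type) [Field K] (n T M r μ L : ℕ) (hr : 1 ≤ r)
    (hL : L = T * Nat.clog 2 ((M + 1) * r) + μ + 2) (hn : L ≤ n) :
    ∃ k u : ℕ, k * u ≤ n ∧ ∀ (Ω : Type) [Fintype Ω] (D : Ω → SumDS K M), SolvesSums D n T μ →
      ∀ X Y : Fin k → Finset (Fin u),
        n ^ 2 * Nat.card Ω ≤ 8 * 2 ^ μ * L ^ 2 *
          Nat.card {q : Ω × (Fin k × Fin k) × Fin M //
            (D q.1).Entangles r X Y q.2.1.1 q.2.1.2 q.2.2} :=
  sums_bound K n T M r μ L hr hL hn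

end Pool.Agent.Results.MP_e016b3_lc.PolynomialQueries
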