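import Pool.Agent.Q226.DSS.Main

/-!
# 3SUM-Indexing with unreliable negations needs quadratic space

Two arrays (sets of at most `n` integers from `0, …, N`, `N ≥ n ^ 2`) are given by bits: for each
array `b`, each integer `v` and each tag `k < K`, the bit of the position `((b, v), k)` tells whether
`v` is in the array `b`, written down with the tag `k`. Only inputs with at most one tag for each
pair `(b, v)` are considered; the tags have no meaning.

The model (`LiteralDS`): `s` cells, which contain arbitrary nondecreasing real functions of the bits
and of the negated bits (unlimited preprocessing, unlimited word length), and `2 r` free cells, which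
contain arbitrary nondecreasing functions of the bits and the negated bits of one array. The query
`z` reads cells adaptively and answers whether `z` is the sum of an element of the first array and an
element of the second array, by a condition which is nondecreasing in the contents of the memory. The
structure may be random (a finite family, one member is chosen uniformly).

Faults: each negated bit (the information that there is no `1` at a position) is stuck at `0`,
independently with probability `1 / D`. Everything else is reliable.

Theorem. Let `0 < δ ≤ 1 / 2`, `t ≥ 1`, let the fault rate `1 / D` be as small as one likes and
`K ≥ D log (4 (N + 1) / δ)`. Assume that for all arrays and queries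
* if `z` is a sum then the answer is positive with probability at least `1 / 2 + 2 δ` under faults,
* if `z` is not a sum then the answer is positive with probability at most `1 / 2 - δ` without
  faults, and the expected number of cells read is at most `t`, whatever the faults are.

Then `δ ^ 2 n ^ 2 ≤ 1600 s t log₂ ((n + r) / δ)`, if `400 t log₂ ((n + r) / δ) ≤ δ n`. So
polylogarithmic query time needs space `Ω~(n ^ 2)`, even if the cells which depend on one array only
are not counted, as long as there are at most `2 ^ (polylog n)` of them.

* If the negated bits are reliable, then two cells are enough in this model: bits and negated bits
  together form an antichain, so two nondecreasing functions can contain a code of the arrays and its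
  negative, and these two numbers again form an antichain. The theorem says that no such use of the
  negations works if they are unreliable at a rate as small as one likes.
* For `D = 1` all negated bits are `0`. This is the case of monotone structures, which is the
  starting result `AdaptiveMonotone` (without tags); it is used in the proof.

The proof: every pair `(b, v)` gets a random tag. The negated bits of the positions that belong to
these tags are as good as faulty ones, because with high probability every pair has a faulty
position. So all negated bits which depend on the arrays can be replaced by `0`, which gives a
randomised monotone structure with the same number of cells.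
-/

set_option autoImplicit false

namespace Pool.Agent.Results.MP_e016b3_lc.UnreliableNegations

open Pool.Agent.Q226.DSS

/-- Let `0 < δ ≤ 1 / 2`, `t ≥ 1`, `400 t log₂ ((n + r) / δ) ≤ δ n`, `n ^ 2 ≤ N`, `D ≥ 1` and
`K ≥ D log (4 (N + 1) / δ)`. Let `P ω`, `ω ∈ Ω`, be a random data structure with `s` cells which
contain nondecreasing functions of the bits and of the negated bits, and `2 r` free cells. If `P`
solves 3SUM-Indexing for arrays of at most `n` integers from `0, …, N` with negated bits that are
stuck at `0` with probability `1 / D` (`Solves`), then
`δ ^ 2 n ^ 2 ≤ 1600 s t log₂ ((n + r) / δ)`. -/
theorem result (n N s r : ℕ) (δ t : ℝ) (hδ : 0 < δ) (hδ2 : δ ≤ 1 / 2) (ht : 1 ≤ t)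
    (hnt : 400 * t * Real.logb 2 ((n + r) / δ) ≤ δ * n) (hN : n ^ 2 ≤ N) (D K : ℕ) (hD : 1 ≤ D)
    (hK : D * Real.log (4 * (N + 1) / δ) ≤ K) (Ω : Type) [Fintype Ω] [Nonempty Ω]
    (P : Ω → LiteralDS N K s r) (hP : Solves n P D δ t) :
    δ ^ 2 * (n : ℝ) ^ 2 ≤ 1600 * s * t * Real.logb 2 ((n + r) / δ) :=
  main hδ hδ2 ht hnt hN hD hK P hP

end Pool.Agent.Results.MP_e016b3_lc.UnreliableNegations
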